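import Pool.Agent.H683.BW.Stm

/-! Project BW (helper683), task S_GRAM (helper25): left inverses with small integer entries. -/

set_option autoImplicit false

namespace Pool.Agent.H25.BWG

open Pool.Agent.H683.BW Matrix

theorem det_ne {k : ℕ} {ι : Type} [Fintype ι] [DecidableEq ι] (Gm : Matrix ι (Fin k) ℤ)
    (hind : LinearIndependent ℚ (fun i c => (Gm i c : ℚ))) : (Gm * Gmᵀ).det ≠ 0 := by
  intro hdet
  set Gq : Matrix ι (Fin k) ℚ := Gm.map (Int.castRingHom ℚ) with hGq
  have hmap : (Gm * Gmᵀ).map (Int.castRingHom ℚ) = Gq * Gqᵀ := by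
    rw [Matrix.map_mul, hGq, Matrix.transpose_map]
  have hdq : (Gq * Gqᵀ).det = 0 := by
    rw [← hmap]
    have h := RingHom.map_det (Int.castRingHom ℚ) (Gm * Gmᵀ)
    rw [hdet, map_zero] at h
    exact h.symm
  obtain ⟨v, hv, hv0⟩ := Matrix.exists_mulVec_eq_zero_iff.2 hdq
  have h1 : (Gqᵀ *ᵥ v) ⬝ᵥ (Gqᵀ *ᵥ v) = 0 := by
    have h2 : v ⬝ᵥ ((Gq * Gqᵀ) *ᵥ v) = 0 := by
      rw [hv0, dotProduct_zero]
    rw [← Matrix.mulVec_mulVec, Matrix.dotProduct_mulVec, ← Matrix.mulVec_transpose] at h2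
    exact h2
  have h3 : Gqᵀ *ᵥ v = 0 := dotProduct_self_eq_zero.1 h1
  apply hv
  rw [Fintype.linearIndependent_iff] at hind
  funext i
  refine hind v ?_ i
  funext c
  have h4 := congrFun h3 c
  simp only [Matrix.mulVec, dotProduct, Matrix.transpose_apply, hGq, Matrix.map_apply,
    Pi.zero_apply] at h4
  rw [Finset.sum_apply, Pi.zero_apply, ← h4]
  refine Finset.sum_congr rfl fun j _ => ?_
  simp only [Pi.smul_apply, smul_eq_mul]
  rw [mul_comm]
  rfl

theorem det_nonneg' {k : ℕ} {ι : Type} [Fintype ι] [DecidableEq ι] (Gm : Matrix ι (Fin k) ℤ) :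
    0 ≤ (Gm * Gmᵀ).det := by
  set Gr : Matrix ι (Fin k) ℝ := Gm.map (Int.castRingHom ℝ) with hGr
  have hmap : (Gm * Gmᵀ).map (Int.castRingHom ℝ) = Gr * Grᵀ := by
    rw [Matrix.map_mul, hGr, Matrix.transpose_map]
  have h := RingHom.map_det (Int.castRingHom ℝ) (Gm * Gmᵀ)
  have h1 : 0 ≤ (Gr * Grᵀ).det := by
    have h2 := (Matrix.posSemidef_self_mul_conjTranspose Gr).det_nonneg
    rwa [Matrix.conjTranspose_eq_transpose_of_trivial] at h2
  have h3 : (0 : ℝ) ≤ ((Gm * Gmᵀ).det : ℝ) := by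
    have h4 : ((Gm * Gmᵀ).det : ℝ) = (Gr * Grᵀ).det := by
      rw [← hmap]
      exact h
    rw [h4]
    exact h1
  exact_mod_cast h3

theorem det_bound {ι : Type} [Fintype ι] [DecidableEq ι] {k : ℕ} (hcard : Fintype.card ι ≤ k)
    (M : Matrix ι ι ℤ) (x : ℤ) (hx : 1 ≤ x) (hM : ∀ i j, |M i j| ≤ x) :
    |M.det| ≤ k.factorial * x ^ k := by
  have h := Matrix.det_le (abv := AbsoluteValue.abs) (A := M) (x := x) (fun i j => hM i j)
  have h1 : |M.det| ≤ (Fintype.card ι).factorial • x ^ Fintype.card ι := h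
  refine h1.trans ?_
  rw [nsmul_eq_mul]
  have h2 : ((Fintype.card ι).factorial : ℤ) ≤ k.factorial := by
    exact_mod_cast Nat.factorial_le hcard
  have h3 : x ^ Fintype.card ι ≤ x ^ k := pow_le_pow_right₀ hx hcard
  exact mul_le_mul h2 h3 (by positivity) (by positivity)

theorem GRAM : S_GRAM := by
  intro k N ι _ _ G hG hind
  have hcard : Fintype.card ι ≤ k := by
    have h := hind.fintype_card_le_finrank
    simpa using h
  set Gm : Matrix ι (Fin k) ℤ := Matrix.of G with hGm
  set P : Matrix ι ι ℤ := Gm * Gmᵀ with hP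
  set x : ℤ := (k : ℤ) * N ^ 2 + 1 with hx
  have hx1 : 1 ≤ x := by
    have : (0 : ℤ) ≤ (k : ℤ) * N ^ 2 := by positivity
    omega
  have hPe : ∀ i j, |P i j| ≤ x := by
    intro i j
    rw [hP, Matrix.mul_apply]
    refine (Finset.abs_sum_le_sum_abs _ _).trans ?_
    have h1 : ∑ c, |Gm i c * Gmᵀ c j| ≤ ∑ _c : Fin k, (N : ℤ) ^ 2 := by
      refine Finset.sum_le_sum fun c _ => ?_
      simp only [hGm, Matrix.transpose_apply, Matrix.of_apply]
      rw [abs_of_nonneg (mul_nonneg (hG i c).1 (hG j c).1), sq]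
      exact mul_le_mul (hG i c).2 (hG j c).2 (hG j c).1 (by positivity)
    rw [Finset.sum_const, Finset.card_univ, Fintype.card_fin, nsmul_eq_mul] at h1
    omega
  have hd0 : 0 < P.det := lt_of_le_of_ne (det_nonneg' Gm) (Ne.symm (det_ne Gm hind))
  have hF : (0 : ℤ) ≤ k.factorial * x ^ k := by positivity
  have hkN : (0 : ℤ) ≤ (k : ℤ) * N := by positivity
  have hRR : ((RR k N : ℕ) : ℤ) = k.factorial * x ^ k * (k * N + 1) := by
    unfold RR
    push_cast
    rfl
  have hle : (k.factorial : ℤ) * x ^ k ≤ RR k N := by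
    rw [hRR]
    nlinarith
  refine ⟨fun i c => (P.adjugate * Gm) i c, P.det, hd0, ?_, ?_, ?_⟩
  · exact (le_abs_self _).trans ((det_bound hcard P x hx1 hPe).trans hle)
  · intro i c
    have hadj : ∀ j, |P.adjugate i j| ≤ k.factorial * x ^ k := by
      intro j
      rw [Matrix.adjugate_apply]
      refine det_bound hcard _ x hx1 ?_
      intro a b
      by_cases ha : a = j
      · subst ha
        rw [Matrix.updateRow_self]
        by_cases hb : b = i
        · subst hb
          rw [Pi.single_eq_same, abs_one]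
          exact hx1
        · rw [Pi.single_eq_of_ne hb, abs_zero]
          omega
      · rw [Matrix.updateRow_ne ha]
        exact hPe a b
    show |(P.adjugate * Gm) i c| ≤ (RR k N : ℤ)
    rw [Matrix.mul_apply]
    refine (Finset.abs_sum_le_sum_abs _ _).trans ?_
    have h1 : ∑ j, |P.adjugate i j * Gm j c| ≤ ∑ _j : ι, (k.factorial * x ^ k) * (N : ℤ) := by
      refine Finset.sum_le_sum fun j _ => ?_
      rw [abs_mul]
      have h2 : |Gm j c| ≤ (N : ℤ) := by
        simp only [hGm, Matrix.of_apply]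
        rw [abs_of_nonneg (hG j c).1]
        exact (hG j c).2
      exact mul_le_mul (hadj j) h2 (abs_nonneg _) hF
    rw [Finset.sum_const, Finset.card_univ, nsmul_eq_mul] at h1
    refine h1.trans ?_
    rw [hRR]
    have h3 : (Fintype.card ι : ℤ) ≤ k := by exact_mod_cast hcard
    have h4 : (Fintype.card ι : ℤ) * (k.factorial * x ^ k * N) ≤ k * (k.factorial * x ^ k * N) :=
      mul_le_mul_of_nonneg_right h3 (by positivity)
    have h5 : (k : ℤ) * (k.factorial * x ^ k * N) = k.factorial * x ^ k * (k * N) := by ring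
    rw [h5] at h4
    refine h4.trans ?_
    exact mul_le_mul_of_nonneg_left (by omega) hF
  · intro i j
    show ∑ c, (P.adjugate * Gm) i c * G j c = if i = j then P.det else 0
    have h1 : ∑ c, (P.adjugate * Gm) i c * G j c = ((P.adjugate * Gm) * Gmᵀ) i j := by
      rw [Matrix.mul_apply (M := P.adjugate * Gm)]
      rfl
    rw [h1, Matrix.mul_assoc, ← hP, Matrix.adjugate_mul, Matrix.smul_apply, Matrix.one_apply]
    split_ifs
    · rw [smul_eq_mul, mul_one]
    · rw [smul_zero]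

end Pool.Agent.H25.BWG
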