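import Pool.Agent.H979.FC.Stm

/-! Project FC (helper979), task BLOCK (helper25): replacing a rare block by rare additional steps. -/

set_option autoImplicit false

open MeasureTheory ProbabilityTheory Finset
open scoped ENNReal NNReal

namespace Pool.Agent.H25

open Pool.Agent.H979.FR Pool.Agent.H979.FC

namespace FCB

instance instPF {I : Type} (μ : I → ℝ≥0) : IsProbabilityMeasure (PF μ) := by
  unfold PF
  infer_instance

theorem or_iff' {x y : Bool} : (x || y) = true ↔ x = true ∨ y = true := by
  simp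

theorem meas_coord {I : Type} (i : I) (b : Bool) : MeasurableSet {A : I → Bool | A i = b} := by
  have h : MeasurableSet ((fun A : I → Bool => A i) ⁻¹' {b}) :=
    measurable_pi_apply i (measurableSet_singleton b)
  have e : {A : I → Bool | A i = b} = (fun A : I → Bool => A i) ⁻¹' {b} := by
    ext A
    simp
  rw [e]
  exact h

/-- the probability that a coordinate is true -/
theorem real_true (h0 : S_PFV) {I : Type} (μ : I → ℝ≥0) (i : I) :
    (PF μ).real {A | A i = true} = 1 - Real.exp (-(μ i : ℝ)) := by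
  have h := h0 I μ {i}
  have e1 : {A : I → Bool | ∀ j ∈ ({i} : Finset I), A j = false} = {A | A i = false} := by
    ext A; simp
  have e2 : {A : I → Bool | A i = true} = {A : I → Bool | A i = false}ᶜ := by
    ext A; simp
  rw [e1, Finset.sum_singleton] at h
  rw [e2, probReal_compl_eq_one_sub (meas_coord i false)]
  unfold Measure.real
  rw [h, ENNReal.toReal_ofReal (Real.exp_pos _).le]

theorem meas_or {I : Type} : Measurable
    (fun (p : (I → Bool) × (I → Bool)) i => p.1 i || p.2 i) := by
  refine measurable_pi_iff.2 fun i => ?_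
  have h1 : Measurable (fun p : (I → Bool) × (I → Bool) => p.1 i) :=
    (measurable_pi_apply i).comp measurable_fst
  have h2 : Measurable (fun p : (I → Bool) × (I → Bool) => p.2 i) :=
    (measurable_pi_apply i).comp measurable_snd
  exact (measurable_of_countable (fun q : Bool × Bool => q.1 || q.2)).comp (h1.prodMk h2)

theorem uni_real (h1 : S_UNI) {I : Type} [Countable I] (μ ν : I → ℝ≥0) {S : Set (I → Bool)}
    (hS : MeasurableSet S) :
    (PF (fun i => μ i + ν i)).real S =
      ((PF μ).prod (PF ν)).real {p | (fun i => p.1 i || p.2 i) ∈ S} := by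
  rw [← h1 I μ ν]
  unfold Measure.real
  rw [Measure.map_apply meas_or hS]
  rfl

/-- the pivotal event -/
def B {I : Type} [DecidableEq I] (S : Set (I → Bool)) (e : I) : Set (I → Bool) :=
  {A | A ∉ S ∧ Function.update A e true ∈ S}

theorem meas_upd {I : Type} [DecidableEq I] (e : I) :
    Measurable (fun A : I → Bool => Function.update A e true) := by
  refine measurable_pi_iff.2 fun i => ?_
  by_cases h : i = e
  · subst h
    simp only [Function.update_self]
    exact measurable_const
  · simp only [Function.update_of_ne h]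
    exact measurable_pi_apply i

theorem meas_B {I : Type} [DecidableEq I] {S : Set (I → Bool)} (hS : MeasurableSet S) (e : I) :
    MeasurableSet (B S e) :=
  hS.compl.inter (meas_upd e hS)

theorem real_prod {α β : Type} [MeasurableSpace α] [MeasurableSpace β] (P : Measure α)
    (Q : Measure β) [IsProbabilityMeasure P] [IsProbabilityMeasure Q] (s : Set α) (t : Set β) :
    (P.prod Q).real (s ×ˢ t) = P.real s * Q.real t := by
  unfold Measure.real
  rw [Measure.prod_prod, ENNReal.toReal_mul]

theorem upper (h0 : S_PFV) (h1 : S_UNI) {I : Type} [Countable I] [DecidableEq I]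
    {S : Set (I → Bool)} (hS : MeasurableSet S) (hinc : Inc S) (γ : I) (μ : I → ℝ≥0) (ν : ℝ≥0) :
    (PF (fun i => μ i + if i = γ then ν else 0)).real S ≤
      (PF μ).real S + ν * (PF μ).real (B S γ) := by
  rw [uni_real h1 μ (fun i => if i = γ then ν else 0) hS]
  set P := PF μ with hP
  set Q := PF (fun i => if i = γ then ν else 0) with hQ
  have hnull : Q {N | ∃ i, i ≠ γ ∧ N i = true} = 0 := by
    have e : {N : I → Bool | ∃ i, i ≠ γ ∧ N i = true} = ⋃ i, {N : I → Bool | i ≠ γ ∧ N i = true} := by
      ext N; simp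
    rw [e, measure_iUnion_null_iff]
    intro i
    by_cases hi : i = γ
    · have : {N : I → Bool | i ≠ γ ∧ N i = true} = ∅ := by
        ext N; simp [hi]
      rw [this, measure_empty]
    · have h := real_true h0 (fun i => if i = γ then ν else 0) i
      simp only [if_neg hi, NNReal.coe_zero, neg_zero, Real.exp_zero, sub_self] at h
      refine measure_mono_null (t := {N : I → Bool | N i = true}) (fun N hN => hN.2) ?_
      rcases (measureReal_eq_zero_iff (measure_ne_top _ _)).1 h with h'
      exact h'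
  have hsub : {p : (I → Bool) × (I → Bool) | (fun i => p.1 i || p.2 i) ∈ S} ⊆
      ((S ×ˢ Set.univ) ∪ (B S γ ×ˢ {N | N γ = true})) ∪
        (Set.univ ×ˢ {N | ∃ i, i ≠ γ ∧ N i = true}) := by
    rintro ⟨A, N⟩ h
    simp only [Set.mem_ofPred_eq] at h
    by_cases hN : ∃ i, i ≠ γ ∧ N i = true
    · exact Or.inr ⟨trivial, hN⟩
    · push Not at hN
      by_cases hA : A ∈ S
      · exact Or.inl (Or.inl ⟨hA, trivial⟩)
      · refine Or.inl (Or.inr ⟨⟨hA, ?_⟩, ?_⟩)
        · refine hinc _ _ ?_ h
          intro i hi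
          by_cases hi2 : i = γ
          · rw [hi2, Function.update_self]
          · rw [Function.update_of_ne hi2]
            have := hN i hi2
            rcases or_iff'.1 hi with h3 | h3
            · exact h3
            · exact absurd h3 this
        · by_contra hγ
          apply hA
          refine hinc _ _ ?_ h
          intro i hi
          rcases or_iff'.1 hi with h3 | h3
          · exact h3
          · by_cases hi2 : i = γ
            · rw [hi2] at h3
              exact absurd h3 hγ
            · exact absurd h3 (hN i hi2)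
  have hnull2 : (P.prod Q).real (Set.univ ×ˢ {N | ∃ i, i ≠ γ ∧ N i = true}) = 0 := by
    rw [real_prod]
    have : Q.real {N | ∃ i, i ≠ γ ∧ N i = true} = 0 := by
      unfold Measure.real
      rw [hnull]
      rfl
    rw [this, mul_zero]
  have hγ : Q.real {N | N γ = true} ≤ ν := by
    rw [real_true h0]
    simp only [if_true]
    have := Real.add_one_le_exp (-(ν : ℝ))
    linarith
  calc (P.prod Q).real {p : (I → Bool) × (I → Bool) | (fun i => p.1 i || p.2 i) ∈ S}
      ≤ (P.prod Q).real (((S ×ˢ Set.univ) ∪ (B S γ ×ˢ {N | N γ = true})) ∪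
        (Set.univ ×ˢ {N | ∃ i, i ≠ γ ∧ N i = true})) := measureReal_mono hsub
    _ ≤ (P.prod Q).real ((S ×ˢ Set.univ) ∪ (B S γ ×ˢ {N | N γ = true})) +
        (P.prod Q).real (Set.univ ×ˢ {N | ∃ i, i ≠ γ ∧ N i = true}) := measureReal_union_le _ _
    _ ≤ ((P.prod Q).real (S ×ˢ Set.univ) + (P.prod Q).real (B S γ ×ˢ {N | N γ = true})) +
        (P.prod Q).real (Set.univ ×ˢ {N | ∃ i, i ≠ γ ∧ N i = true}) := by
        gcongr
        exact measureReal_union_le _ _
    _ = P.real S + P.real (B S γ) * Q.real {N | N γ = true} := by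
        rw [hnull2, real_prod, real_prod, add_zero, probReal_univ, mul_one]
    _ ≤ P.real S + P.real (B S γ) * ν := by
        gcongr
    _ = P.real S + ν * P.real (B S γ) := by ring

theorem lower (h0 : S_PFV) (h1 : S_UNI) {I : Type} [Countable I] [DecidableEq I]
    {S : Set (I → Bool)} (hS : MeasurableSet S) (hinc : Inc S) (T : Finset I) (μ : I → ℝ≥0)
    (δ : ℝ≥0) {e : I} (he : e ∈ T) :
    (PF μ).real S + (1 - Real.exp (-(δ : ℝ))) * (PF μ).real (B S e) ≤
      (PF (fun i => μ i + if i ∈ T then δ else 0)).real S := by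
  rw [uni_real h1 μ (fun i => if i ∈ T then δ else 0) hS]
  set P := PF μ with hP
  set Q := PF (fun i => if i ∈ T then δ else 0) with hQ
  have hsub : (S ×ˢ (Set.univ : Set (I → Bool))) ∪ (B S e ×ˢ {N | N e = true}) ⊆
      {p : (I → Bool) × (I → Bool) | (fun i => p.1 i || p.2 i) ∈ S} := by
    rintro ⟨A, N⟩ h
    simp only [Set.mem_ofPred_eq]
    rcases h with h | h
    · refine hinc _ _ ?_ h.1
      intro i hi
      exact or_iff'.2 (Or.inl hi)
    · refine hinc _ _ ?_ h.1.2
      intro i hi
      by_cases hi2 : i = e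
      · rw [hi2]
        exact or_iff'.2 (Or.inr h.2)
      · rw [Function.update_of_ne hi2] at hi
        exact or_iff'.2 (Or.inl hi)
  have hdisj : Disjoint (S ×ˢ (Set.univ : Set (I → Bool))) (B S e ×ˢ {N | N e = true}) := by
    rw [Set.disjoint_left]
    rintro ⟨A, N⟩ h h'
    exact h'.1.1 h.1
  have hQe : Q.real {N | N e = true} = 1 - Real.exp (-(δ : ℝ)) := by
    rw [real_true h0]
    simp only [if_pos he]
  calc P.real S + (1 - Real.exp (-(δ : ℝ))) * P.real (B S e)
      = (P.prod Q).real (S ×ˢ (Set.univ : Set (I → Bool))) +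
        (P.prod Q).real (B S e ×ˢ {N | N e = true}) := by
        rw [real_prod, real_prod, probReal_univ, mul_one, hQe]
        ring
    _ = (P.prod Q).real ((S ×ˢ (Set.univ : Set (I → Bool))) ∪ (B S e ×ˢ {N | N e = true})) :=
        (measureReal_union hdisj ((meas_B hS e).prod (meas_coord e true))).symm
    _ ≤ _ := measureReal_mono hsub

theorem meas_add {I : Type} [DecidableEq I] (T : Finset I) :
    Measurable (fun (A : I → Bool) i => A i || decide (i ∈ T)) := by
  refine measurable_pi_iff.2 fun i => ?_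
  exact (measurable_of_countable (fun b : Bool => b || decide (i ∈ T))).comp (measurable_pi_apply i)

theorem cond_real (h2 : S_COND) {I : Type} [Countable I] [DecidableEq I] (μ : I → ℝ≥0)
    (Y : Set (I → Bool)) (hY : MeasurableSet Y) (T : Finset I) (a : ℝ) (ha : 0 < a)
    (hμ : ∀ i ∈ T, a ≤ μ i) :
    (PF μ).real {A | (fun i => A i || decide (i ∈ T)) ∈ Y} ≤
      ((1 - Real.exp (-a))⁻¹) ^ T.card * (PF μ).real Y := by
  have h := h2 I μ Y hY T a ha hμ
  have hpos : 0 < 1 - Real.exp (-a) := by
    have : Real.exp (-a) < 1 := by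
      rw [Real.exp_lt_one_iff]
      linarith
    linarith
  have h3 := ENNReal.toReal_mono (measure_ne_top (PF μ) Y) h
  rw [ENNReal.toReal_mul, ENNReal.toReal_ofReal (by positivity)] at h3
  unfold Measure.real
  rw [inv_pow, ← div_eq_inv_mul, le_div_iff₀ (by positivity)]
  linarith

theorem chain (h2 : S_COND) {I : Type} [Countable I] [DecidableEq I] (μ : I → ℝ≥0)
    {S : Set (I → Bool)} (hS : MeasurableSet S) (T : Finset I) (a : ℝ) (ha : 0 < a)
    (hμ : ∀ i ∈ T, a ≤ μ i) (T' : Finset I) (hT' : T' ⊆ T) :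
    (PF μ).real {A | A ∉ S ∧ (fun i => A i || decide (i ∈ T')) ∈ S} ≤
      ∑ e ∈ T', ((1 - Real.exp (-a))⁻¹) ^ T.card * (PF μ).real (B S e) := by
  have hpos : 0 < 1 - Real.exp (-a) := by
    have : Real.exp (-a) < 1 := by
      rw [Real.exp_lt_one_iff]
      linarith
    linarith
  have hC : 1 ≤ (1 - Real.exp (-a))⁻¹ := by
    rw [one_le_inv₀ hpos]
    linarith [Real.exp_pos (-a)]
  induction T' using Finset.induction_on with
  | empty =>
    have : {A : I → Bool | A ∉ S ∧ (fun i => A i || decide (i ∈ (∅ : Finset I))) ∈ S} = ∅ := by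
      ext A
      simp
    rw [this]
    simp
  | insert e T'' he ih =>
    have hT'' : T'' ⊆ T := (Finset.subset_insert e T'').trans hT'
    have ih' := ih hT''
    rw [Finset.sum_insert he]
    have hsub : {A : I → Bool | A ∉ S ∧ (fun i => A i || decide (i ∈ insert e T'')) ∈ S} ⊆
        {A | (fun i => A i || decide (i ∈ T'')) ∈ B S e} ∪
          {A | A ∉ S ∧ (fun i => A i || decide (i ∈ T'')) ∈ S} := by
      rintro A ⟨hA, hA2⟩
      by_cases h : (fun i => A i || decide (i ∈ T'')) ∈ S
      · exact Or.inr ⟨hA, h⟩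
      · refine Or.inl ⟨h, ?_⟩
        have e1 : Function.update (fun i => A i || decide (i ∈ T'')) e true =
            fun i => A i || decide (i ∈ insert e T'') := by
          funext i
          by_cases hi : i = e
          · rw [hi, Function.update_self]
            simp
          · rw [Function.update_of_ne hi]
            simp [hi]
        rw [e1]
        exact hA2
    have h3 := cond_real h2 μ (B S e) (meas_B hS e) T'' a ha (fun i hi => hμ i (hT'' hi))
    have h4 : ((1 - Real.exp (-a))⁻¹) ^ T''.card ≤ ((1 - Real.exp (-a))⁻¹) ^ T.card :=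
      pow_le_pow_right₀ hC (Finset.card_le_card hT'')
    calc (PF μ).real {A : I → Bool | A ∉ S ∧ (fun i => A i || decide (i ∈ insert e T'')) ∈ S}
        ≤ (PF μ).real ({A | (fun i => A i || decide (i ∈ T'')) ∈ B S e} ∪
          {A | A ∉ S ∧ (fun i => A i || decide (i ∈ T'')) ∈ S}) := measureReal_mono hsub
      _ ≤ (PF μ).real {A | (fun i => A i || decide (i ∈ T'')) ∈ B S e} +
          (PF μ).real {A | A ∉ S ∧ (fun i => A i || decide (i ∈ T'')) ∈ S} :=
          measureReal_union_le _ _
      _ ≤ ((1 - Real.exp (-a))⁻¹) ^ T.card * (PF μ).real (B S e) +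
          ∑ e ∈ T'', ((1 - Real.exp (-a))⁻¹) ^ T.card * (PF μ).real (B S e) := by
          refine add_le_add (h3.trans ?_) ih'
          gcongr

theorem one_sub_exp_ge {y : ℝ} (hy : 0 ≤ y) (hy1 : y ≤ 1) : y / 2 ≤ 1 - Real.exp (-y) := by
  have h1 := Real.add_one_le_exp y
  have h2 : Real.exp (-y) ≤ (1 + y)⁻¹ := by
    rw [Real.exp_neg]
    exact inv_anti₀ (by linarith) (by linarith)
  have h3 : (1 + y)⁻¹ ≤ 1 - y / 2 := by
    rw [inv_le_iff_one_le_mul₀ (by linarith)]
    nlinarith
  linarith

theorem small (h0 : S_PFV) (h1 : S_UNI) (h2 : S_COND) {I : Type} [Countable I] [DecidableEq I]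
    {S : Set (I → Bool)} (hS : MeasurableSet S) (hinc : Inc S) (γ : I) (T : Finset I)
    (hγT : ∀ A : I → Bool, Function.update A γ true ∈ S → (fun i => A i || decide (i ∈ T)) ∈ S)
    (μ : I → ℝ≥0) (a : ℝ) (ha : 0 < a) (hμ : ∀ i ∈ T, a ≤ μ i) (ν δ : ℝ≥0)
    (hδ : 2 * (T.card : ℝ) * ((1 - Real.exp (-a))⁻¹) ^ T.card * ν ≤ δ)
    (hν : (T.card : ℝ) * ((1 - Real.exp (-a))⁻¹) ^ T.card * ν ≤ 1 / 2) :
    (PF (fun i => μ i + if i = γ then ν else 0)).real S ≤
      (PF (fun i => μ i + if i ∈ T then δ else 0)).real S := by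
  have hpos : 0 < 1 - Real.exp (-a) := by
    have : Real.exp (-a) < 1 := by
      rw [Real.exp_lt_one_iff]
      linarith
    linarith
  have hup := upper h0 h1 hS hinc γ μ ν
  have hch := chain h2 μ hS T a ha hμ T (Finset.Subset.refl T)
  have hBγ : (PF μ).real (B S γ) ≤
      (PF μ).real {A | A ∉ S ∧ (fun i => A i || decide (i ∈ T)) ∈ S} :=
    measureReal_mono fun A hA => ⟨hA.1, hγT A hA.2⟩
  set C := ((1 - Real.exp (-a))⁻¹) ^ T.card with hC
  have hC0 : 0 < C := by positivity
  set Δ := (PF (fun i => μ i + if i ∈ T then δ else 0)).real S - (PF μ).real S with hΔ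
  have hx : (T.card : ℝ) * C * ν ≤ 1 - Real.exp (-(δ : ℝ)) := by
    have h3 := one_sub_exp_ge (y := 2 * ((T.card : ℝ) * C * ν)) (by positivity) (by linarith)
    have h4 : Real.exp (-(δ : ℝ)) ≤ Real.exp (-(2 * ((T.card : ℝ) * C * ν))) := by
      apply Real.exp_le_exp.2
      linarith
    linarith
  have hlow : ∀ e ∈ T, (T.card : ℝ) * C * ν * (PF μ).real (B S e) ≤ Δ := by
    intro e he
    have h3 := lower h0 h1 hS hinc T μ δ he
    have h4 : (T.card : ℝ) * C * ν * (PF μ).real (B S e) ≤
        (1 - Real.exp (-(δ : ℝ))) * (PF μ).real (B S e) :=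
      mul_le_mul_of_nonneg_right hx measureReal_nonneg
    linarith
  have hkey : (ν : ℝ) * (PF μ).real (B S γ) ≤ Δ := by
    rcases T.eq_empty_or_nonempty with hT | hT
    · have h3 : (PF μ).real (B S γ) ≤ 0 := by
        refine hBγ.trans (hch.trans ?_)
        rw [hT]
        simp
      have h4 : Δ = 0 := by
        rw [hΔ, hT]
        simp
      rw [h4]
      exact mul_nonpos_of_nonneg_of_nonpos ν.2 h3
    · have hk : (0 : ℝ) < T.card := by exact_mod_cast hT.card_pos
      have h3 : ∑ e ∈ T, (T.card : ℝ) * C * ν * (PF μ).real (B S e) ≤ ∑ e ∈ T, Δ :=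
        Finset.sum_le_sum hlow
      rw [Finset.sum_const, nsmul_eq_mul] at h3
      have h4 : ∑ e ∈ T, (T.card : ℝ) * C * ν * (PF μ).real (B S e) =
          (T.card : ℝ) * (ν * ∑ e ∈ T, C * (PF μ).real (B S e)) := by
        rw [Finset.mul_sum, Finset.mul_sum]
        refine Finset.sum_congr rfl fun e _ => ?_
        ring
      rw [h4] at h3
      have h5 := le_of_mul_le_mul_left h3 hk
      refine le_trans ?_ h5
      exact mul_le_mul_of_nonneg_left (hBγ.trans hch) ν.2
  linarith

theorem general (h0 : S_PFV) (h1 : S_UNI) (h2 : S_COND) {I : Type} [Countable I] [DecidableEq I]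
    {S : Set (I → Bool)} (hS : MeasurableSet S) (hinc : Inc S) (γ : I) (T : Finset I)
    (hγT : ∀ A : I → Bool, Function.update A γ true ∈ S → (fun i => A i || decide (i ∈ T)) ∈ S)
    (a : ℝ) (ha : 0 < a) (n : ℕ) : ∀ (μ : I → ℝ≥0), (∀ i ∈ T, a ≤ μ i) → ∀ ν δ : ℝ≥0,
    2 * (T.card : ℝ) * ((1 - Real.exp (-a))⁻¹) ^ T.card * ν ≤ δ →
    (T.card : ℝ) * ((1 - Real.exp (-a))⁻¹) ^ T.card * ν ≤ 2 ^ n / 2 →
    (PF (fun i => μ i + if i = γ then ν else 0)).real S ≤
      (PF (fun i => μ i + if i ∈ T then δ else 0)).real S := by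
  induction n with
  | zero =>
    intro μ hμ ν δ hδ hν
    exact small h0 h1 h2 hS hinc γ T hγT μ a ha hμ ν δ hδ (by simpa using hν)
  | succ n ih =>
    intro μ hμ ν δ hδ hν
    have hδ' : 2 * (T.card : ℝ) * ((1 - Real.exp (-a))⁻¹) ^ T.card * (ν / 2 : ℝ≥0) ≤
        (δ / 2 : ℝ≥0) := by
      push_cast
      linarith
    have hν' : (T.card : ℝ) * ((1 - Real.exp (-a))⁻¹) ^ T.card * (ν / 2 : ℝ≥0) ≤ 2 ^ n / 2 := by
      push_cast
      rw [pow_succ] at hν
      linarith
    have s1 := ih (fun i => μ i + if i = γ then ν / 2 else 0)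
      (fun i hi => (hμ i hi).trans (by push_cast; simp)) (ν / 2) (δ / 2) hδ' hν'
    have s2 := ih (fun i => μ i + if i ∈ T then δ / 2 else 0)
      (fun i hi => (hμ i hi).trans (by push_cast; simp)) (ν / 2) (δ / 2) hδ' hν'
    have e1 : (fun i => (μ i + if i = γ then ν / 2 else 0) + if i = γ then ν / 2 else 0) =
        fun i => μ i + if i = γ then ν else 0 := by
      funext i
      by_cases h : i = γ
      · simp only [if_pos h]
        rw [add_assoc, add_halves]
      · simp only [if_neg h, add_zero]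
    have e2 : (fun i => (μ i + if i ∈ T then δ / 2 else 0) + if i ∈ T then δ / 2 else 0) =
        fun i => μ i + if i ∈ T then δ else 0 := by
      funext i
      by_cases h : i ∈ T
      · simp only [if_pos h]
        rw [add_assoc, add_halves]
      · simp only [if_neg h, add_zero]
    have e3 : (fun i => (μ i + if i = γ then ν / 2 else 0) + if i ∈ T then δ / 2 else 0) =
        fun i => (μ i + if i ∈ T then δ / 2 else 0) + if i = γ then ν / 2 else 0 := by
      funext i
      rw [add_right_comm]
    rw [e1, e3] at s1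
    rw [e2] at s2
    exact s1.trans s2

end FCB

theorem fc_block (h0 : S_PFV) (h1 : S_UNI) (h2 : S_COND) : S_BLOCK := by
  intro I _ _ S hS hinc γ T hγT μ a ha hμ ν δ hδ
  obtain ⟨n, hn⟩ := pow_unbounded_of_one_lt
    (2 * ((T.card : ℝ) * ((1 - Real.exp (-a))⁻¹) ^ T.card * ν)) (one_lt_two)
  have h := FCB.general h0 h1 h2 hS hinc γ T hγT a ha n μ hμ ν δ hδ (by linarith)
  exact (ENNReal.toReal_le_toReal (measure_ne_top _ _) (measure_ne_top _ _)).1 h

end Pool.Agent.H25
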