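import Pool.Agent.H979.FR.Stm

set_option autoImplicit false
set_option linter.unusedVariables false

open MeasureTheory ProbabilityTheory Finset
open scoped ENNReal NNReal

namespace Pool.Agent.H25

open Pool.Agent.H979.FR Pool.Agent.TH994.LR

namespace FRE

/-- the weights as a function on unordered pairs -/
noncomputable def wt {Γ : Type} (w : Γ → Γ → ℝ) (hs : ∀ u v, w u v = w v u) : Sym2 Γ → ℝ≥0 :=
  Sym2.lift ⟨fun u v => (w u v).toNNReal, fun u v => congrArg Real.toNNReal (hs u v)⟩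

theorem wt_mk {Γ : Type} (w : Γ → Γ → ℝ) (hs : ∀ u v, w u v = w v u) (u v : Γ) :
    wt w hs s(u, v) = (w u v).toNNReal := rfl

theorem wt_coe {Γ : Type} (w : Γ → Γ → ℝ) (hs : ∀ u v, w u v = w v u) (u v : Γ) :
    ((wt w hs s(u, v) : ℝ≥0) : ℝ≥0∞) = ENNReal.ofReal (w u v) := rfl

theorem wt_real {Γ : Type} (w : Γ → Γ → ℝ) (hs : ∀ u v, w u v = w v u) (h0 : ∀ u v, 0 ≤ w u v)
    (u v : Γ) : ((wt w hs s(u, v) : ℝ≥0) : ℝ) = w u v := by
  rw [wt_mk, Real.coe_toNNReal _ (h0 u v)]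

/-- numbers -/
theorem nums {ψ : ℕ → ℝ} (hψ0 : ∀ r, 0 < ψ r)
    (hsum : ∀ k, ∑ r ∈ range k, (1 + Real.log (1 + 2 * ψ r)) / ψ r ≤ 1 / 16) :
    16 ≤ ψ 0 ∧ (∀ k, ∑ j ∈ range k, (ψ j)⁻¹ ≤ 1 / 16) ∧
    (∀ r, 2 / ψ r ≤ 2 * ((1 + Real.log (1 + 2 * ψ r)) / ψ r)) ∧
    (∀ r, 2 / ψ r * Real.log (1 + ψ r / (2 * min 4 (ψ 0 / 2))) ≤
      2 * ((1 + Real.log (1 + 2 * ψ r)) / ψ r)) ∧
    (∀ k, ∑ j ∈ range k, 2 * ((1 + Real.log (1 + 2 * ψ j)) / ψ j) ≤ 1 / 8) ∧
    (∀ k, ∑ j ∈ range k, Real.exp (-(1 / 4) * ψ j) ≤ 1 / 4) := by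
  have hlog : ∀ r, 0 ≤ Real.log (1 + 2 * ψ r) := fun r => Real.log_nonneg (by
    have := hψ0 r; linarith)
  have h16 : 16 ≤ ψ 0 := by
    have h := hsum 1
    rw [sum_range_one, div_le_iff₀ (hψ0 0)] at h
    have := hlog 0
    linarith
  have hinv : ∀ r, (ψ r)⁻¹ ≤ (1 + Real.log (1 + 2 * ψ r)) / ψ r := by
    intro r
    rw [div_eq_mul_inv]
    have h1 := inv_pos.2 (hψ0 r)
    nlinarith [mul_nonneg (hlog r) h1.le]
  have hS1 : ∀ k, ∑ j ∈ range k, (ψ j)⁻¹ ≤ 1 / 16 := fun k =>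
    (Finset.sum_le_sum fun j _ => hinv j).trans (hsum k)
  refine ⟨h16, hS1, ?_, ?_, ?_, ?_⟩
  · intro r
    have := hinv r
    rw [div_eq_mul_inv]
    linarith
  · intro r
    have hmin : min (4 : ℝ) (ψ 0 / 2) = 4 := min_eq_left (by linarith)
    rw [hmin]
    have h0 := hψ0 r
    have h1 : Real.log (1 + ψ r / (2 * 4)) ≤ Real.log (1 + 2 * ψ r) := by
      apply Real.log_le_log (by positivity)
      have : ψ r / (2 * 4) ≤ 2 * ψ r := by
        rw [div_le_iff₀ (by norm_num)]; linarith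
      linarith
    calc 2 / ψ r * Real.log (1 + ψ r / (2 * 4)) ≤ 2 / ψ r * (1 + Real.log (1 + 2 * ψ r)) := by
          apply mul_le_mul_of_nonneg_left (by linarith) (by positivity)
      _ = 2 * ((1 + Real.log (1 + 2 * ψ r)) / ψ r) := by ring
  · intro k
    rw [← Finset.mul_sum]
    have := hsum k
    linarith
  · intro k
    have h1 : ∀ j ∈ range k, Real.exp (-(1 / 4) * ψ j) ≤ 4 * (ψ j)⁻¹ := by
      intro j _
      have h0 := hψ0 j
      have h2 := Real.add_one_le_exp ((1 / 4) * ψ j)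
      rw [neg_mul, Real.exp_neg]
      have h3 : (Real.exp (1 / 4 * ψ j))⁻¹ ≤ ((1 / 4) * ψ j)⁻¹ :=
        inv_anti₀ (by positivity) (by linarith)
      refine h3.trans (le_of_eq ?_)
      rw [mul_inv]
      norm_num
    refine (Finset.sum_le_sum h1).trans ?_
    rw [← Finset.mul_sum]
    have := hS1 k
    linarith

open Classical in
/-- the set reached from `o` is contained in a finite set with probability at most `1/4` -/
theorem reach_sub (hCL : S_CL) (Γ : Type) [Countable Γ] (w : Γ → Γ → ℝ) (h0 : ∀ u v, 0 ≤ w u v)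
    (hs : ∀ u v, w u v = w v u) (hfin : ∀ u, ∑' v, ENNReal.ofReal (w u v) ≠ ⊤)
    (ψ : ℕ → ℝ) (hψ0 : ∀ r, 0 < ψ r) (hmono : ∀ r, ψ 0 ≤ ψ r)
    (hsum : ∀ k, ∑ r ∈ range k, (1 + Real.log (1 + 2 * ψ r)) / ψ r ≤ 1 / 16)
    (hψ : ∀ (r : ℕ) (D : Finset Γ), D.Nonempty → 2 ^ r ≤ D.card →
      ENNReal.ofReal (2 * ψ r) ≤ outW (wt w hs) D)
    (Ω : Type) [MeasurableSpace Ω] (P : Measure Ω) [IsProbabilityMeasure P] (N : Γ → Ω → Γ → Bool)
    (hN : ∀ u, Measurable (N u)) (hind : iIndepFun N P)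
    (hP : ∀ (u : Γ) (S : Finset Γ), u ∉ S → P {ω | ∀ v ∈ S, N u ω v = false} ≤
      ENNReal.ofReal (Real.exp (-∑ v ∈ S, w u v)))
    (o : Γ) (Λ : Finset Γ) (ho : o ∈ Λ) :
    P {ω | ∀ y, Relation.ReflTransGen (fun a b => N a ω b = true) o y → y ∈ Λ} ≤
      ENNReal.ofReal (1 / 4) := by
  obtain ⟨h16, hS1, hκ1, hκ2, hS2, hC⟩ := nums hψ0 hsum
  have hfin' : ∀ x, ∑' y, (wt w hs s(x, y) : ℝ≥0∞) ≠ ⊤ := fun x => hfin x
  obtain ⟨Λ', hΛ, hbig⟩ := exists_big hfin' Λ (ENNReal.ofReal_pos.2 (hψ0 0))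
  set w' := wV (wt w hs) Λ' with hw
  set B : Finset {x // x ∈ Λ'} := univ.filter (fun x => x.1 ∉ Λ) with hB
  set o' : {x // x ∈ Λ'} := ⟨o, hΛ ho⟩ with ho'
  obtain ⟨k, hk⟩ : ∃ k : ℕ, Fintype.card {x // x ∈ Λ'} < 2 ^ (k + 1) :=
    ⟨Fintype.card {x // x ∈ Λ'}, lt_of_lt_of_le Nat.lt_two_pow_self
      (Nat.pow_le_pow_right (by norm_num) (Nat.le_succ _))⟩
  have hmain := finite_main (w := w') (wV_nonneg (wt w hs) Λ') (B := B) (o := o') hψ0
    (fun r D h1 h2 h3 => bd_ge hψ0 hmono hψ hbig r D h1 h2 h3) (τ := 4) (by norm_num) hS1 hκ1 hκ2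
    hS2 (lam := 1) (η := 1 / 4) (by norm_num) (by norm_num) (by norm_num) hk
  let N' : {x // x ∈ Λ'} → Ω → {x // x ∈ Λ'} → Bool := fun x ω y => N x.1 ω y.1
  have hg : Measurable (fun (f : Γ → Bool) (y : {x // x ∈ Λ'}) => f y.1) :=
    measurable_pi_lambda _ fun y => measurable_pi_apply y.1
  have hN' : ∀ x, Measurable (N' x) := fun x => hg.comp (hN x.1)
  have hind' : iIndepFun N' P := by
    have h1 := hind.precomp (g := (Subtype.val : {x // x ∈ Λ'} → Γ)) Subtype.val_injective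
    exact h1.comp (fun _ => fun (f : Γ → Bool) (y : {x // x ∈ Λ'}) => f y.1) (fun _ => hg)
  have hP' : ∀ (x : {x // x ∈ Λ'}) (S : Finset {x // x ∈ Λ'}), x ∉ S →
      P {ω | ∀ y ∈ S, N' x ω y = false} ≤ ENNReal.ofReal (Real.exp (-∑ y ∈ S, w' s(x, y))) := by
    intro x S hx
    have h1 := hP x.1 (S.map (Function.Embedding.subtype _)) (by
      intro h
      rw [Finset.mem_map] at h
      obtain ⟨y, hy, hxy⟩ := h
      exact hx ((Subtype.ext hxy : y = x) ▸ hy))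
    have e1 : {ω | ∀ v ∈ S.map (Function.Embedding.subtype _), N x.1 ω v = false} =
        {ω | ∀ y ∈ S, N' x ω y = false} := by
      ext ω
      constructor
      · intro h y hy
        exact h y.1 (Finset.mem_map.2 ⟨y, hy, rfl⟩)
      · intro h v hv
        obtain ⟨y, hy, rfl⟩ := Finset.mem_map.1 hv
        exact h y hy
    have e2 : ∑ v ∈ S.map (Function.Embedding.subtype _), w x.1 v = ∑ y ∈ S, w' s(x, y) := by
      rw [Finset.sum_map]
      refine Finset.sum_congr rfl fun y hy => ?_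
      have hne : ¬ (s(x, y) : Sym2 {x // x ∈ Λ'}).IsDiag := by
        rw [Sym2.mk_isDiag_iff]
        rintro rfl
        exact hx hy
      rw [hw]
      unfold wV
      rw [if_neg hne]
      exact (wt_real w hs h0 x.1 y.1).symm
    rw [e1, e2] at h1
    exact h1
  have hcl := hCL {x // x ∈ Λ'} Ω P N' hN' hind' w' (wV_nonneg (wt w hs) Λ') hP' o' B
  have hsub : {ω | ∀ y, Relation.ReflTransGen (fun a b => N a ω b = true) o y → y ∈ Λ} ⊆
      {ω | ∃ U : Finset {x // x ∈ Λ'}, o' ∈ U ∧ Disjoint U B ∧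
        ∀ x ∈ U, ∀ y ∉ U, N' x ω y = false} := by
    intro ω hω
    refine ⟨univ.filter (fun x => Relation.ReflTransGen (fun a b => N a ω b = true) o x.1),
      ?_, ?_, ?_⟩
    · rw [Finset.mem_filter]
      exact ⟨mem_univ _, Relation.ReflTransGen.refl⟩
    · rw [Finset.disjoint_left]
      intro x hx hxB
      rw [Finset.mem_filter] at hx
      rw [hB, Finset.mem_filter] at hxB
      exact hxB.2 (hω _ hx.2)
    · intro x hx y hy
      rw [Finset.mem_filter] at hx hy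
      by_contra hno
      apply hy
      refine ⟨mem_univ _, hx.2.tail ?_⟩
      simpa using hno
  refine (measure_mono hsub).trans (hcl.trans (ENNReal.ofReal_le_ofReal ?_))
  exact hmain.trans (hC (k + 1))

end FRE

open FRE in
open Classical in
theorem fr_eng (hCL : S_CL) : S_ENG := by
  intro Γ _ w h0 hs hfin ψ hψ0 hmono hsum hψ Ω _ P _ N hN hind hP o
  have hψ' : ∀ (r : ℕ) (D : Finset Γ), D.Nonempty → 2 ^ r ≤ D.card →
      ENNReal.ofReal (2 * ψ r) ≤ outW (wt w hs) D := by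
    intro r D h1 h2
    refine (hψ r D h1 h2).trans (le_of_eq ?_)
    unfold outW
    refine Finset.sum_congr rfl fun u _ => tsum_congr fun v => ?_
    by_cases hv : v ∈ D
    · rw [if_pos hv, if_pos hv]
    · rw [if_neg hv, if_neg hv]; rfl
  obtain ⟨en, hen⟩ : ∃ f : ℕ → Γ, Function.Surjective f := by
    have : Nonempty Γ := ⟨o⟩
    exact exists_surjective_nat Γ
  let Λ : ℕ → Finset Γ := fun n => insert o ((range n).image en)
  have hΛmono : Monotone Λ := fun m n hmn =>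
    Finset.insert_subset_insert _ (Finset.image_subset_image (Finset.range_mono hmn))
  have hU : {ω | {v | Relation.ReflTransGen (fun a b => N a ω b = true) o v}.Finite} =
      ⋃ n, {ω | ∀ y, Relation.ReflTransGen (fun a b => N a ω b = true) o y → y ∈ Λ n} := by
    ext ω
    simp only [Set.mem_ofPred_eq, Set.mem_iUnion]
    constructor
    · intro hf
      choose idx hidx using hen
      obtain ⟨M, hM⟩ : ∃ M, ∀ y ∈ hf.toFinset, idx y < M := by
        refine ⟨(hf.toFinset.sup idx) + 1, fun y hy => ?_⟩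
        exact Nat.lt_succ_of_le (Finset.le_sup hy)
      refine ⟨M, fun y hy => Finset.mem_insert_of_mem (Finset.mem_image.2 ⟨idx y, ?_, hidx y⟩)⟩
      exact Finset.mem_range.2 (hM y (hf.mem_toFinset.2 hy))
    · rintro ⟨n, hn⟩
      exact (Finset.finite_toSet (Λ n)).subset hn
  have hle : P {ω | {v | Relation.ReflTransGen (fun a b => N a ω b = true) o v}.Finite} ≤
      ENNReal.ofReal (1 / 4) := by
    rw [hU, Monotone.measure_iUnion]
    · exact iSup_le fun n => reach_sub hCL Γ w h0 hs hfin ψ hψ0 hmono hsum hψ' Ω P N hN hind hP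
        o (Λ n) (Finset.mem_insert_self _ _)
    · intro m n hmn ω hω y hy
      exact hΛmono hmn (hω y hy)
  intro hz
  have h1 : (1 : ℝ≥0∞) ≤ P {ω | {v | Relation.ReflTransGen (fun a b => N a ω b = true) o v}.Finite} +
      P {ω | {v | Relation.ReflTransGen (fun a b => N a ω b = true) o v}.Infinite} := by
    rw [← measure_univ (μ := P)]
    refine le_trans (measure_mono ?_) (measure_union_le _ _)
    intro ω _
    exact Set.finite_or_infinite _
  rw [hz, add_zero] at h1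
  have h2 := h1.trans hle
  rw [← ENNReal.ofReal_one, ENNReal.ofReal_le_ofReal_iff (by norm_num)] at h2
  norm_num at h2

end Pool.Agent.H25
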