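import Pool.Agent.H867.FT.Gen5

/-! Project FT (helper867), task IND (helper25): independence of the presentation. -/

set_option autoImplicit false

namespace Pool.Agent.H25.FT867IND

open Pool.Agent.H867.FT

/-- the abstract form: two injective, additive, `S`-linear maps into `K` from the same set -/
theorem key {S K : Type} [CommRing S] [IsDomain S] [Field K] [Algebra S K] [IsFractionRing S K]
    {q : ℕ} (E E' : {φ : S →+ S // IsCartier q φ} → K) (hE : Function.Injective E)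
    (hE' : Function.Injective E')
    (add : ∀ φ ψ χ : {φ : S →+ S // IsCartier q φ}, (∀ s, χ.1 s = φ.1 s + ψ.1 s) → E χ = E φ + E ψ)
    (add' : ∀ φ ψ χ : {φ : S →+ S // IsCartier q φ}, (∀ s, χ.1 s = φ.1 s + ψ.1 s) →
      E' χ = E' φ + E' ψ)
    (mul : ∀ (r : S) (φ ψ : {φ : S →+ S // IsCartier q φ}), (∀ s, ψ.1 s = φ.1 (r * s)) →
      E ψ = algebraMap S K r * E φ)
    (mul' : ∀ (r : S) (φ ψ : {φ : S →+ S // IsCartier q φ}), (∀ s, ψ.1 s = φ.1 (r * s)) →
      E' ψ = algebraMap S K r * E' φ) :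
    ∃ z : K, z ≠ 0 ∧ ∀ φ, E' φ = z * E φ := by
  -- the zero map
  let o : {φ : S →+ S // IsCartier q φ} := ⟨0, fun r s => by simp⟩
  have ho : E o = 0 := by
    have h := add o o o (fun s => by simp [o])
    have h2 : E o + E o = E o + 0 := by rw [← h, add_zero]
    exact add_left_cancel h2
  have ho' : E' o = 0 := by
    have h := add' o o o (fun s => by simp [o])
    have h2 : E' o + E' o = E' o + 0 := by rw [← h, add_zero]
    exact add_left_cancel h2
  by_cases hall : ∀ φ, E φ = 0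
  · refine ⟨1, one_ne_zero, fun φ => ?_⟩
    have h1 : φ = o := hE ((hall φ).trans ho.symm)
    rw [h1, ho', ho, mul_zero]
  · push Not at hall
    obtain ⟨φ₀, hφ₀⟩ := hall
    have hφ₀' : E' φ₀ ≠ 0 := by
      intro h
      apply hφ₀
      have h1 : φ₀ = o := hE' (h.trans ho'.symm)
      rw [h1, ho]
    refine ⟨E' φ₀ / E φ₀, div_ne_zero hφ₀' hφ₀, fun φ => ?_⟩
    obtain ⟨r, s, hs, hrs⟩ := IsFractionRing.div_surjective (A := S) (E φ / E φ₀)
    have hs0 : algebraMap S K s ≠ 0 :=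
      IsFractionRing.to_map_ne_zero_of_mem_nonZeroDivisors hs
    -- `φ (s ·)` and `φ₀ (r ·)`
    have hc : ∀ (t : S) (ψ : {φ : S →+ S // IsCartier q φ}),
        IsCartier q (ψ.1.comp (AddMonoidHom.mulLeft t)) := by
      intro t ψ a b
      have h1 : t * (a ^ q * b) = a ^ q * (t * b) := by ring
      simp only [AddMonoidHom.comp_apply, AddMonoidHom.coe_mulLeft]
      rw [h1]
      exact ψ.2 a (t * b)
    let φs : {φ : S →+ S // IsCartier q φ} := ⟨_, hc s φ⟩
    let φr : {φ : S →+ S // IsCartier q φ} := ⟨_, hc r φ₀⟩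
    have e1 : E φs = algebraMap S K s * E φ := mul s φ φs fun t => rfl
    have e2 : E φr = algebraMap S K r * E φ₀ := mul r φ₀ φr fun t => rfl
    have e1' : E' φs = algebraMap S K s * E' φ := mul' s φ φs fun t => rfl
    have e2' : E' φr = algebraMap S K r * E' φ₀ := mul' r φ₀ φr fun t => rfl
    have h2 : algebraMap S K s * E φ = algebraMap S K r * E φ₀ := by
      rw [div_eq_div_iff hs0 hφ₀] at hrs
      rw [hrs]
      ring
    have h3 : φs = φr := hE (by rw [e1, e2, h2])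
    have h4 : algebraMap S K s * E' φ = algebraMap S K r * E' φ₀ := by
      rw [← e1', ← e2', h3]
    have h5 : E' φ = algebraMap S K r / algebraMap S K s * E' φ₀ := by
      rw [div_mul_eq_mul_div, eq_div_iff hs0, ← h4]
      ring
    rw [h5, hrs]
    field_simp

theorem ind (h : S_CRT) : S_IND := by
  intro p e _ P P' S K _ _ _ _ _ _ _ _ _ _ _ _ _ _ _ _ _ _ _ _ _ C C' hP hP' hC hC'
  obtain ⟨E, hE, hr, ha, hm⟩ := h p e P S K C hP hC
  obtain ⟨E', hE', hr', ha', hm'⟩ := h p e P' S K C' hP' hC'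
  obtain ⟨z, hz, hzE⟩ := key E E' hE hE' ha ha' hm hm'
  refine ⟨z, hz, fun β => ?_⟩
  rw [hr' β]
  constructor
  · rintro ⟨φ, hφ⟩
    exact ⟨E φ, (hr _).2 ⟨φ, rfl⟩, by rw [← hφ, hzE]⟩
  · rintro ⟨β₀, hβ₀, hβ⟩
    obtain ⟨φ, hφ⟩ := (hr β₀).1 hβ₀
    exact ⟨φ, by rw [hzE, hφ, hβ]⟩

end Pool.Agent.H25.FT867IND
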