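import Pool.Agent.H867.FT.Gen11

/-!
# The completion of a Noetherian local ring is Noetherian
-/

set_option autoImplicit false

namespace Pool.Agent.H25.FT867NOC

open Pool.Agent.H867.FT

open Filter Topology

/-- evaluation of power series in a complete local ring -/
theorem evl (k S : Type) [CommRing k] [CommRing S] [IsLocalRing S]
    [IsAdicComplete (IsLocalRing.maximalIdeal S) S] (σ : k →+* S) (d : ℕ) (x : Fin d → S)
    (hx : ∀ i, x i ∈ IsLocalRing.maximalIdeal S) :
    ∃ φ : MvPowerSeries (Fin d) k →+* S, (∀ c, φ (MvPowerSeries.C c) = σ c) ∧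
      ∀ i, φ (MvPowerSeries.X i) = x i := by
  let _ : WithIdeal S := ⟨IsLocalRing.maximalIdeal S⟩
  let _ : UniformSpace k := ⊥
  have hd : DiscreteTopology k := inferInstance
  have hu : IsUniformAddGroup k := inferInstance
  obtain ⟨h1, h2⟩ := (IsAdic.isAdicComplete_iff (I := IsLocalRing.maximalIdeal S) rfl).1
    inferInstance
  have hφ : Continuous σ := continuous_of_discreteTopology
  have ha : MvPowerSeries.HasEval x := by
    refine ⟨fun i => ?_, ?_⟩
    · rw [IsTopologicallyNilpotent, (IsLocalRing.maximalIdeal S).hasBasis_nhds_zero_adic.tendsto_right_iff]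
      intro N _
      filter_upwards [eventually_ge_atTop N] with n hn
      exact Ideal.pow_le_pow_right hn (Ideal.pow_mem_pow (hx i) n)
    · rw [cofinite_eq_bot]
      exact tendsto_bot
  refine ⟨MvPowerSeries.eval₂Hom hφ ha, fun c => ?_, fun i => ?_⟩
  · rw [MvPowerSeries.coe_eval₂Hom, MvPowerSeries.eval₂_C]
  · rw [MvPowerSeries.coe_eval₂Hom, MvPowerSeries.eval₂_X]

/-- the completion of a Noetherian local ring is Noetherian -/
theorem noeth (A : Type) [CommRing A] [IsLocalRing A] [IsNoetherianRing A] :
    IsNoetherianRing (AdicCompletion (IsLocalRing.maximalIdeal A) A) := by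
  obtain ⟨d, x, hx⟩ := Submodule.fg_iff_exists_fin_generating_family.mp
    (IsNoetherian.noetherian (IsLocalRing.maximalIdeal A))
  obtain ⟨y, hy⟩ : ∃ y : Fin d → AdicCompletion (IsLocalRing.maximalIdeal A) A,
    y = fun i => algebraMap A (AdicCompletion (IsLocalRing.maximalIdeal A) A) (x i) := ⟨_, rfl⟩
  have hmap : IsLocalRing.maximalIdeal (AdicCompletion (IsLocalRing.maximalIdeal A) A) =
      Ideal.span (Set.range y) := by
    rw [AdicCompletion.maximalIdeal_eq_map]
    refine (congrArg (Ideal.map (algebraMap A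
      (AdicCompletion (IsLocalRing.maximalIdeal A) A))) hx.symm).trans ?_
    show Ideal.map _ (Ideal.span (Set.range x)) = _
    rw [Ideal.map_span, ← Set.range_comp, hy]
    rfl
  have hym : ∀ i, y i ∈ IsLocalRing.maximalIdeal (AdicCompletion (IsLocalRing.maximalIdeal A) A) := by
    intro i
    rw [hmap]
    exact Ideal.subset_span ⟨i, rfl⟩
  obtain ⟨φ, hφC, hφX⟩ := evl A (AdicCompletion (IsLocalRing.maximalIdeal A) A)
    (algebraMap A (AdicCompletion (IsLocalRing.maximalIdeal A) A)) d y hym
  have hI : (Ideal.span (Set.range (MvPowerSeries.X : Fin d → MvPowerSeries (Fin d) A))).map φ =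
      IsLocalRing.maximalIdeal (AdicCompletion (IsLocalRing.maximalIdeal A) A) := by
    rw [Ideal.map_span, ← Set.range_comp, hmap]
    congr 2
    funext i
    exact hφX i
  have hH : IsHausdorff ((Ideal.span (Set.range
      (MvPowerSeries.X : Fin d → MvPowerSeries (Fin d) A))).map φ)
      (AdicCompletion (IsLocalRing.maximalIdeal A) A) := by
    rw [hI]
    infer_instance
  have hC : IsAdicComplete (Ideal.span (Set.range
      (MvPowerSeries.X : Fin d → MvPowerSeries (Fin d) A))) (MvPowerSeries (Fin d) A) := inferInstance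
  have hsurj : Function.Surjective φ := by
    refine surjective_of_mk_map_comp_surjective (I := Ideal.span (Set.range
      (MvPowerSeries.X : Fin d → MvPowerSeries (Fin d) A))) φ ?_
    intro t
    obtain ⟨s, rfl⟩ := Ideal.Quotient.mk_surjective t
    obtain ⟨r, hr⟩ := (AdicCompletion.residueField_map_bijective A).2 (IsLocalRing.residue _ s)
    obtain ⟨a, rfl⟩ := IsLocalRing.residue_surjective r
    rw [IsLocalRing.ResidueField.map_residue] at hr
    refine ⟨MvPowerSeries.C a, ?_⟩
    rw [RingHom.comp_apply, hφC, Ideal.Quotient.mk_eq_mk_iff_sub_mem, hI]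
    exact (Ideal.Quotient.mk_eq_mk_iff_sub_mem _ _).mp hr
  exact isNoetherianRing_of_surjective _ _ φ hsurj

theorem noc : S_NOC := by
  intro p _ A _ _ _ _ _ _
  exact noeth A

end Pool.Agent.H25.FT867NOC
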