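import Pool.Agent.H770.GS.TD
import Pool.Agent.H106.TBbasic
import Pool.Agent.H628.TCcutneg

/-! Project TD (helper770), task TD2 (helper25): the second derivative in the cut region, `c ≤ √3`. -/

set_option autoImplicit false

open MeasureTheory Set intervalIntegral Filter Topology

namespace Pool.Agent.H25.TDcutup

open Pool.Agent.Helper82.GC Pool.Agent.H770.GS Pool.Agent.H628.TCcutneg

theorem eL_pos (r x : ℝ) : 0 < eL r x := by
  rw [← Pool.Agent.H106.TB.eL_eq]
  positivity

theorem W_eL (r x : ℝ) : W r * eL r x ≤ Real.exp (-r ^ 2) := by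
  rw [← Pool.Agent.H106.TB.eL_eq]
  unfold W
  rw [← Real.exp_add, ← Real.exp_add]
  apply Real.exp_le_exp.2
  nlinarith [sq_nonneg (r - x)]

theorem Q_le {r c w : ℝ} (hr : 0 < r) (hr1 : r ≤ 1) (hc : 1 ≤ c) (hc2 : c ^ 2 ≤ 3) (hw : 0 ≤ w)
    (hwr : w ≤ r) (hcut : 2 * r ≤ c * (r + w)) :
    Qcdd r c w ≤ - (W r * (r * nL r (c * (r - w)) + c * nLd r (c * (r - w)))) := by
  have hc0 : 0 < c := by linarith
  have hc3 : c ≤ 2 := le_of_sq_le_sq' (by norm_num; linarith) (by norm_num)
  set A := 2 * r / c with hA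
  have hcA : c * A = 2 * r := by
    rw [hA]
    field_simp
  have hAw : A ≤ r + w := by
    rw [hA, div_le_iff₀ hc0]
    linarith
  have hrA : r ≤ A := by
    rw [hA, le_div_iff₀ hc0]
    nlinarith
  have hn0 : ∀ a, 0 ≤ a → a ≤ A → 0 ≤ nL r (c * a) := by
    intro a h1 h2
    refine nL_nonneg (by positivity) ?_
    rw [← hcA]
    gcongr
  have hcont1 : Continuous fun a => om (a - w) * nL r (c * a) := by
    have h2 := om_cont
    have h3 := nL_cont r
    fun_prop
  have hcont2 : Continuous fun a => om (a + w) * nL r (c * a) := by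
    have h2 := om_cont
    have h3 := nL_cont r
    fun_prop
  have eQ : Qcdd r c w = -(∫ a in (0:ℝ)..A, om (a - w) * nL r (c * a)) +
      (∫ a in (0:ℝ)..(r - w), om (a + w) * nL r (c * a)) -
      W r * (r * nL r (c * (r - w)) + c * nLd r (c * (r - w))) := rfl
  rw [eQ]
  have hsplit : (∫ a in (0:ℝ)..A, om (a - w) * nL r (c * a)) =
      (∫ a in (0:ℝ)..(r - w), om (a - w) * nL r (c * a)) +
        ∫ a in (r - w)..A, om (a - w) * nL r (c * a) :=
    (integral_add_adjacent_intervals (hcont1.intervalIntegrable _ _) (hcont1.intervalIntegrable _ _)).symm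
  have h1 : (∫ a in (0:ℝ)..(r - w), om (a + w) * nL r (c * a)) ≤
      ∫ a in (0:ℝ)..(r - w), om (a - w) * nL r (c * a) := by
    apply intervalIntegral.integral_mono_on (by linarith) (hcont2.intervalIntegrable _ _)
      (hcont1.intervalIntegrable _ _)
    intro a ha
    apply mul_le_mul_of_nonneg_right _ (hn0 a ha.1 (by linarith [ha.2]))
    apply om_le
    · have h3 := mul_nonneg ha.1 hw
      linarith [show (a + w) ^ 2 - (a - w) ^ 2 = 4 * (a * w) by ring]
    · have h3 : a + w ≤ 1 := by linarith [ha.2]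
      have h4 : 0 ≤ a + w := by linarith [ha.1]
      calc (a + w) ^ 2 ≤ 1 ^ 2 := by gcongr
        _ ≤ 3 := by norm_num
  have h2 : 0 ≤ ∫ a in (r - w)..A, om (a - w) * nL r (c * a) := by
    apply intervalIntegral.integral_nonneg (by linarith)
    intro a ha
    apply mul_nonneg _ (hn0 a (by linarith [ha.1]) ha.2)
    unfold om
    apply mul_nonneg _ (W_pos _).le
    nlinarith [ha.1, ha.2]
  rw [hsplit]
  linarith

/-- the lower bound for the last term -/
theorem L_ge {r c x : ℝ} (hr : 0 < r) (hr1 : r ≤ 1) (hc : 1 ≤ c) (hc3 : c ≤ 1.73206) (hx0 : 0 ≤ x)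
    (hx : x ≤ 2 * r * (c - 1)) :
    eL r x * (r * (1 + 2 * c) - 2 * c * x + x * (2 * r - x) * (2 * r - c * x) / 4) ≤
      r * nL r x + c * nLd r x := by
  have he := eL_pos r x
  have hx2 : x ≤ 1.46412 * r := by nlinarith
  have hp := Pool.Agent.H106.TB.fL_ge (r := r) (x := x) (by linarith)
  rw [Pool.Agent.H106.TB.nL_eq, Pool.Agent.H106.TB.nLd_eq]
  have hx3 : x ≤ 1.46412 := by linarith
  have hk : 0 ≤ r * x / 2 + c * (2 - x ^ 2) / 4 := by
    have h1 : x * x ≤ 1.46412 * r * x := mul_le_mul_of_nonneg_right hx2 hx0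
    have h2 : x ^ 2 ≤ 2.15 := by nlinarith
    have h3 : c * x ^ 2 ≤ 1.73206 * x ^ 2 := mul_le_mul_of_nonneg_right hc3 (sq_nonneg x)
    nlinarith
  have h1 := mul_le_mul_of_nonneg_right hp hk
  have e1 : eL r x * (r * (1 + 2 * c) - 2 * c * x + x * (2 * r - x) * (2 * r - c * x) / 4) =
      (2 * r - x) * eL r x * (r * x / 2 + c * (2 - x ^ 2) / 4) +
      eL r x * (r + c * (r - 3 * x / 2)) := by ring
  have e2 : r * (x / 2 * fL r x + eL r x) +
      c * (fL r x * (2 - x ^ 2) / 4 + eL r x * (r - 3 * x / 2)) =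
      fL r x * (r * x / 2 + c * (2 - x ^ 2) / 4) + eL r x * (r + c * (r - 3 * x / 2)) := by ring
  rw [e1, e2]
  linarith

theorem cutup : S_cutup := by
  intro r c w hr hr1 hc hc2 hw hwr hcut
  have hc0 : 0 < c := by linarith
  have hc3 : c ≤ 1.73206 := le_of_sq_le_sq' (by norm_num; linarith) (by norm_num)
  have hQ := Q_le hr hr1 hc hc2 hw hwr hcut
  set x := c * (r - w) with hx
  have hx0 : 0 ≤ x := mul_nonneg hc0.le (by linarith)
  have hx1 : x ≤ 2 * r * (c - 1) := by
    rw [hx]
    nlinarith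
  have hL := L_ge hr hr1 hc hc3 hx0 hx1
  have hWr := W_pos r
  have he := eL_pos r x
  have hWL := mul_le_mul_of_nonneg_left hL hWr.le
  have hWe : 0 ≤ W r * eL r x := by positivity
  have hx2 : x ≤ 1.46412 * r := by nlinarith
  set B := r * (1 + 2 * c) - 2 * c * x + x * (2 * r - x) * (2 * r - c * x) / 4 with hB
  have hQ2 : Qcdd r c w ≤ -(W r * eL r x * B) := by
    have : W r * (eL r x * B) = W r * eL r x * B := by ring
    linarith
  constructor
  · -- general bound
    have hB1 : -(0.75 * r) ≤ B := by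
      have h1 : c * x ≤ c * (2 * r * (c - 1)) := mul_le_mul_of_nonneg_left hx1 hc0.le
      have h2 : -(0.6083 * r) ≤ r * (1 + 2 * c) - 2 * c * x := by
        have h3 : 0 ≤ r * (1.6083 + 6 * c - 4 * c ^ 2) := by
          apply mul_nonneg hr.le
          nlinarith
        nlinarith
      have h4 : -(0.1345 * r) ≤ x * (2 * r - x) * (2 * r - c * x) / 4 := by
        have h5 : 0 ≤ x * (2 * r - x) := mul_nonneg hx0 (by linarith)
        have h6 : x * (2 * r - x) ≤ r ^ 2 := by nlinarith [sq_nonneg (r - x)]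
        have h7 : -(0.538 * r) ≤ 2 * r - c * x := by
          have h3 : 0 ≤ r * (2.538 + 2 * c - 2 * c ^ 2) := by
            apply mul_nonneg hr.le
            nlinarith
          nlinarith
        have h8 : x * (2 * r - x) * -(0.538 * r) ≤ x * (2 * r - x) * (2 * r - c * x) :=
          mul_le_mul_of_nonneg_left h7 h5
        have h9 : x * (2 * r - x) * (0.538 * r) ≤ r ^ 2 * (0.538 * r) :=
          mul_le_mul_of_nonneg_right h6 (by positivity)
        have h10 : r ^ 2 * (0.538 * r) ≤ 1 * (0.538 * r) := by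
          apply mul_le_mul_of_nonneg_right _ (by positivity)
          nlinarith
        linarith
      rw [hB]
      linarith
    have h1 : -(W r * eL r x * B) ≤ W r * eL r x * (0.75 * r) := by
      have := mul_le_mul_of_nonneg_left hB1 hWe
      linarith
    have h2 : W r * eL r x * (0.75 * r) ≤ Real.exp (-r ^ 2) * (0.75 * r) :=
      mul_le_mul_of_nonneg_right (W_eL r x) (by positivity)
    linarith
  · intro hw5
    have hB0 : 0 ≤ B := by
      have h1 : x ≤ c * (3 * r / 5) := by
        rw [hx]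
        apply mul_le_mul_of_nonneg_left _ hc0.le
        linarith
      have h2 : c * x ≤ c * (c * (3 * r / 5)) := mul_le_mul_of_nonneg_left h1 hc0.le
      have hc4 : c ^ 2 * r ≤ 3 * r := mul_le_mul_of_nonneg_right hc2 hr.le
      have h3 : 0 ≤ 2 * r - c * x := by
        have e1 : c * (c * (3 * r / 5)) = c ^ 2 * r * (3 / 5) := by ring
        rw [e1] at h2
        linarith
      have h4 : 0 ≤ 2 * r - x := by linarith
      have h5 : 0 ≤ x * (2 * r - x) * (2 * r - c * x) / 4 := by positivity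
      have h6 : 0 ≤ r * (1 + 2 * c - 1.2 * c ^ 2) := by
        apply mul_nonneg hr.le
        have h7 : 0 ≤ (c - 1) * (1.73206 - c) := mul_nonneg (by linarith) (by linarith)
        have e2 : (c - 1) * (1.73206 - c) = 2.73206 * c - c ^ 2 - 1.73206 := by ring
        rw [e2] at h7
        linarith
      have e3 : r * (1 + 2 * c) - 2 * c * x = r * (1 + 2 * c - 1.2 * c ^ 2) +
          2 * (c * (c * (3 * r / 5)) - c * x) := by ring
      rw [hB, e3]
      linarith
    have h1 : 0 ≤ W r * eL r x * B := mul_nonneg hWe hB0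
    linarith

end Pool.Agent.H25.TDcutup
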